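import Pool.Agent.Work.MP_de7025_lc.Defin

set_option autoImplicit false

/-!
# `Δ¹₁-BL₀` interprets elementary arithmetic

There are seven formulas of the signature of Basic Law V (for the domain, `0`, successor, sum,
product, `2 ^ x` and `≤`) which define, without parameters, a model of elementary arithmetic
EFA = `IΔ₀(exp)` in every model of `Δ¹₁-BL₀`: Basic Law V with comprehension for `Δ¹₁` formulas.

The classical theorem that Robinson's `Q` does not interpret `IΔ₀ + exp` (Wilkie and Paris; see
Hájek and Pudlák, Chapter V) is not proved here. Together with it the theorem below shows that
`Δ¹₁-BL₀` is not interpretable in `Q`, so it is not mutually interpretable with `Q`.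

Idea of the proof. `Δ¹₁`-comprehension makes the graphs of the functions `a ↦ ∂ {y | R(y, a)}`
relations. A linear order on a set `I` is good if every set that meets `I` has a least and a
greatest element in `I` and every function on `I` (a relation with a functional graph) has a code,
an object. The codes of the subsets of a good `I`, ordered lexicographically, are good again:
functions on them are coded by binary trees, which are read by a recursion along `I`. Enumerations
of good orders by iterates of `s x = ∂ {x}` give initial segments of the numbers, and
the power construction shows that the numbers are closed under exponentiation.
-/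

namespace Pool.Agent.Results.MP_de7025_lc.InterpretsEFA

open Pool.Agent.Work.MP_de7025_lc

universe u

theorem result : ∃ I : Interp, ∀ M : Str.{u}, DeltaBL M → ∃ A : ArStr.{u}, EFA A ∧ Defines I M A :=
  ⟨theInterp, fun _ h => ⟨NA (frame h), efa_NA (frame h), defines h⟩⟩

end Pool.Agent.Results.MP_de7025_lc.InterpretsEFA
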