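import Pool.Agent.Work.MP_de7025_lc.Defin
import Pool.Agent.Work.MP_de7025_lc.F.F3
import Pool.Agent.Work.MP_de7025_lc.F.S8

set_option autoImplicit false

/-!
# Robinson's `Q` does not interpret `Δ¹₁-BL₀`

No tuple `ι` of formulas of the language `0, s, +, ·, ≤` defines, without parameters, a model of
`Δ¹₁-BL₀` in every model of Robinson's `Q`. The interpretations are relative and multi-dimensional
(with one dimension for the objects and one for each sort `Rel n`), and equality of objects may be
interpreted by any formula. So `Δ¹₁-BL₀` and `Q` are not mutually interpretable.

Idea of the proof. `Δ¹₁-BL₀` interprets elementary arithmetic EFA = `IΔ₀(exp)` (`InterpretsEFA`),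
so it is enough that `Q` does not interpret EFA. This is a theorem of Wilkie and Paris; the
proof given here is semantic. An interpretation of EFA in `Q` gives relation terms (of the algebra of binary
relations) which interpret EFA in all models of a finite theory `U` with a pairing. A table of length
`y` for a finite list of relation terms is a finite partial model with explicit Henkin witnesses,
coded by a number. Every model of EFA has tables of every length: this is a formalised cut elimination for
formulas of bounded depth, done by a game, in which a composition of relations is handled by an interval halving.
Let `σ` say of the interpreted structure that for some length there is no table in which `σ` holds. By an argument in the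
style of Löb this leads to a contradiction: a nonstandard table which is long enough gives a model of `U` whose interpreted
model of EFA contains all the numbers in question as an initial segment, and an ultrafilter limit of tables
gives a model of `U` with the domain `ℕ` in which `σ` holds.
-/

namespace Pool.Agent.Results.MP_de7025_lc.NotInterpretableInQ

open Pool.Agent.Work.MP_de7025_lc

theorem result : ¬ ∃ ι : BLI, ∀ A : QStr, QAx A → ∃ M : Str.{0}, DeltaBL M ∧ DefBL ι A M := by
  rintro ⟨ι, h⟩
  obtain ⟨J, hJ⟩ := F.exists_RInt ι theInterp
    (fun _ hM => ⟨NA (frame hM), efa_NA (frame hM), defines hM⟩) h
  exact F.no_RInt J hJ

end Pool.Agent.Results.MP_de7025_lc.NotInterpretableInQ
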